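import Mathlib
import Pool.Agent.Q97.FF.Final

set_option autoImplicit false

/-!
# A right reversible cancellative monoid with undecidable membership in its group of right quotients

`P` is the submonoid of the group `G` generated by `π 0, …, π (n-1)`.
-/

namespace Pool.Agent.Results.MP_91a774_al.UndecidableMembership

open Pool.Agent.Q97.FF

theorem result : ∃ (n : ℕ) (G : Type) (_ : Group G) (π : Fin n → G),
    -- `P` is right reversible,
    (∀ a ∈ Submonoid.closure (Set.range π), ∀ b ∈ Submonoid.closure (Set.range π),
      ∃ c ∈ Submonoid.closure (Set.range π), ∃ d ∈ Submonoid.closure (Set.range π),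
        a * c = b * d) ∧
    -- `G = P P⁻¹` is its group of right quotients,
    (∀ x : G, ∃ p ∈ Submonoid.closure (Set.range π), ∃ q ∈ Submonoid.closure (Set.range π),
      x = p * q⁻¹) ∧
    -- `G` has solvable word problem,
    ComputablePred (fun w : List (Fin n × Bool) => FreeGroup.lift π (FreeGroup.mk w) = 1) ∧
    -- membership of `P` in `G` is undecidable.
    ¬ ComputablePred (fun w : List (Fin n × Bool) =>
      FreeGroup.lift π (FreeGroup.mk w) ∈ Submonoid.closure (Set.range π)) :=
  Conc.reversible_monoid

end Pool.Agent.Results.MP_91a774_al.UndecidableMembership
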